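import Mathlib
import Pool.Agent.Helper39.KdV.Inst
import Pool.Agent.Helper39.KdV.Depend

/-!
# Well-posedness in `H³(0, L)` of the Korteweg-de Vries equation with the boundary conditions
`u(0) = u(L) = 0`, `u_x(0) = u_x(L)`
-/

open MeasureTheory Set Filter
open scoped Topology

namespace Pool.Agent.Results.MP_a5ec3a_an.WellPosedH3

/-- An element of the Sobolev space `H³(0, L)`: the function `d0` (its continuous representative on
`[0, L]`), its derivatives `d1` and `d2` (also continuous representatives), and a representative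
`d3`, square integrable on `(0, L)`, of its third weak derivative. -/
structure H3 (L : ℝ) where
  /-- the function -/
  d0 : ℝ → ℝ
  /-- the first derivative -/
  d1 : ℝ → ℝ
  /-- the second derivative -/
  d2 : ℝ → ℝ
  /-- the third derivative -/
  d3 : ℝ → ℝ
  memLp_d3 : MemLp d3 2 (volume.restrict (Ioc 0 L))
  d2_eq : ∀ x ∈ Icc 0 L, d2 x = d2 0 + ∫ y in (0 : ℝ)..x, d3 y
  d1_eq : ∀ x ∈ Icc 0 L, d1 x = d1 0 + ∫ y in (0 : ℝ)..x, d2 y
  d0_eq : ∀ x ∈ Icc 0 L, d0 x = d0 0 + ∫ y in (0 : ℝ)..x, d1 y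

variable {L : ℝ}

/-- The norm of `H³(0, L)`. -/
noncomputable def norm3 (u : H3 L) : ℝ :=
  √(∫ x in (0 : ℝ)..L, (u.d0 x ^ 2 + u.d1 x ^ 2 + u.d2 x ^ 2 + u.d3 x ^ 2))

/-- The distance of `H³(0, L)`, that is, the norm of the difference. -/
noncomputable def dist3 (u v : H3 L) : ℝ :=
  √(∫ x in (0 : ℝ)..L, ((u.d0 x - v.d0 x) ^ 2 + (u.d1 x - v.d1 x) ^ 2 + (u.d2 x - v.d2 x) ^ 2 +
    (u.d3 x - v.d3 x) ^ 2))

/-- The boundary conditions `u(0) = 0`, `u(L) = 0`, `u_x(0) = u_x(L)`. -/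
def BC (u : H3 L) : Prop := u.d0 0 = 0 ∧ u.d0 L = 0 ∧ u.d1 0 = u.d1 L

/-- `u` is a solution on `[0, T]` of the initial-boundary value problem with datum `φ`, in the class
`C([0, T]; H³(0, L)) ∩ C¹([0, T]; L²(0, L))`: it has the initial value `φ`, satisfies the boundary
conditions at each time, is continuous in time with values in `H³(0, L)`, and at each time
`t ∈ [0, T]` it is differentiable in time with values in `L²(0, L)` with derivative
`-(u u_x + u_xxx)`. -/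
structure IsSolution (L T : ℝ) (φ : H3 L) (u : ℝ → H3 L) : Prop where
  init : ∀ x ∈ Icc 0 L, (u 0).d0 x = φ.d0 x
  bc : ∀ t ∈ Icc 0 T, BC (u t)
  cont : ∀ t ∈ Icc 0 T, Tendsto (fun s => dist3 (u s) (u t)) (𝓝[Icc 0 T] t) (𝓝 0)
  eqn : ∀ t ∈ Icc 0 T, Tendsto (fun s => ∫ x in (0 : ℝ)..L,
    (((u s).d0 x - (u t).d0 x) / (s - t) + ((u t).d0 x * (u t).d1 x + (u t).d3 x)) ^ 2)
    (𝓝[Icc 0 T \ {t}] t) (𝓝 0)

/-- Local well-posedness, in the sense of Hadamard, of the initial-boundary value problem in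
`H³(0, L)`: existence for data satisfying the boundary conditions, with a time of existence that is
uniform on bounded sets of data, unconditional uniqueness, and continuity of the map from the data
to the solutions, from `H³(0, L)` to `C([0, T]; H³(0, L))`. -/
def WellPosed (L : ℝ) : Prop :=
  ∀ R : ℝ, 0 < R → ∃ T : ℝ, 0 < T ∧
    (∀ φ : H3 L, BC φ → norm3 φ ≤ R → ∃ u : ℝ → H3 L, IsSolution L T φ u) ∧
    (∀ φ : H3 L, BC φ → ∀ T' : ℝ, 0 < T' → ∀ u v : ℝ → H3 L,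
      IsSolution L T' φ u → IsSolution L T' φ v →
        ∀ t ∈ Icc 0 T', ∀ x ∈ Icc 0 L, (u t).d0 x = (v t).d0 x) ∧
    (∀ φ : H3 L, BC φ → norm3 φ ≤ R → ∀ u : ℝ → H3 L, IsSolution L T φ u →
      ∀ ε : ℝ, 0 < ε → ∃ δ : ℝ, 0 < δ ∧
        ∀ ψ : H3 L, BC ψ → norm3 ψ ≤ R → dist3 φ ψ ≤ δ → ∀ v : ℝ → H3 L, IsSolution L T ψ v →
          ∀ t ∈ Icc 0 T, dist3 (u t) (v t) ≤ ε)

open Pool.Agent.Helper39.KdV

open scoped RealInnerProductSpace BoundedContinuousFunction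

/-- The third derivative as an element of `L²`. -/
noncomputable def cls (u : H3 L) : HL L := u.memLp_d3.toLp u.d3

lemma coe_cls (u : H3 L) : cls u =ᵐ[mu L] u.d3 := u.memLp_d3.coeFn_toLp

/-- The element of `H³` with third derivative `f` that satisfies the boundary conditions. -/
noncomputable def toH3 (f : HL L) : H3 L where
  d0 := U0 L f
  d1 := U1 L f
  d2 := U2 L f
  d3 := f
  memLp_d3 := Lp.memLp f
  d2_eq := fun x hx => by
    rw [U2, Q_apply_apply, Q_apply_apply, P_zero _ le_rfl, P_apply, prim_eq _ hx]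
    ring
  d1_eq := fun x hx => by
    rw [U1_eq, Q_apply_apply, Q_apply_apply, P_zero _ le_rfl, P_inc, prim_eq _ hx]
    ring
  d0_eq := fun x hx => by
    rw [U0_zero, U0_eq, P_inc, prim_eq _ hx, zero_add]

lemma cls_toH3 (f : HL L) : cls (toH3 f) = f := Lp.toLp_coeFn f (Lp.memLp f)

lemma bc_toH3 (hL : 0 < L) (f : HL L) : BC (toH3 f) := ⟨U0_zero f, U0_L hL f, U1_bc hL f⟩

lemma eq_Q (hL : 0 < L) {h : ℝ → ℝ} {c : ℝ} {g : HL L} (h1 : ∀ x ∈ Icc 0 L, h x = c + P L g x)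
    (h2 : ∫ x in (0 : ℝ)..L, h x = 0) : ∀ x ∈ Icc 0 L, h x = Q L g x := by
  have h3 : ∫ x in (0 : ℝ)..L, h x = c * L + ⟪inc L 1, V L g⟫ := by
    have h4 : ∫ x in (0 : ℝ)..L, h x = ∫ x in (0 : ℝ)..L, (c + P L g x) := by
      apply intervalIntegral.integral_congr
      intro x hx
      rw [uIcc_of_le hL.le] at hx
      exact h1 x hx
    rw [h4, intervalIntegral.integral_add (by simp) ((P L g).continuous.intervalIntegrable _ _),
      V_apply, inner_inc' hL.le]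
    simp [mul_comm]
  intro x hx
  rw [h1 x hx, Q_apply_apply]
  have h5 : c * L + ⟪inc L 1, V L g⟫ = 0 := by rw [← h3, h2]
  have h6 : ⟪inc L 1, V L g⟫ = -(c * L) := by linarith
  rw [h6]
  field_simp
  ring

lemma d2_cls (hL : 0 < L) {u : H3 L} (hu : BC u) : ∀ x ∈ Icc 0 L, u.d2 x = U2 L (cls u) x := by
  refine eq_Q hL (c := u.d2 0) (fun x hx => ?_) ?_
  · rw [u.d2_eq x hx, P_apply, prim_congr (coe_cls u), prim_eq _ hx]
  · have h1 := u.d1_eq L (right_mem_Icc.2 hL.le)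
    linarith [hu.2.2]

lemma prim_congr' {f : ℝ → ℝ} {u : ℝ →ᵇ ℝ} (h : ∀ x ∈ Icc 0 L, f x = u x) {x : ℝ}
    (hx : x ∈ Icc 0 L) : ∫ t in (0 : ℝ)..x, f t = P L (inc L u) x := by
  rw [P_inc, prim_eq _ hx]
  apply intervalIntegral.integral_congr
  intro y hy
  rw [uIcc_of_le hx.1] at hy
  exact h y ⟨hy.1, hy.2.trans hx.2⟩

lemma d1_cls (hL : 0 < L) {u : H3 L} (hu : BC u) : ∀ x ∈ Icc 0 L, u.d1 x = U1 L (cls u) x := by
  refine eq_Q hL (c := u.d1 0) (g := G L (cls u)) (fun x hx => ?_) ?_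
  · rw [u.d1_eq x hx, prim_congr' (d2_cls hL hu) hx, inc_U2]
  · have h1 := u.d0_eq L (right_mem_Icc.2 hL.le)
    linarith [hu.1, hu.2.1]

lemma d0_cls (hL : 0 < L) {u : H3 L} (hu : BC u) : ∀ x ∈ Icc 0 L, u.d0 x = U0 L (cls u) x := by
  intro x hx
  rw [u.d0_eq x hx, hu.1, zero_add, prim_congr' (d1_cls hL hu) hx, U0_eq]

lemma ae_mem_Icc : ∀ᵐ x ∂(mu L), x ∈ Icc 0 L := by
  filter_upwards [ae_restrict_mem measurableSet_Ioc] with x hx using Ioc_subset_Icc_self hx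

lemma ae_d0 (hL : 0 < L) {u : H3 L} (hu : BC u) : u.d0 =ᵐ[mu L] KK L (cls u) := by
  filter_upwards [ae_mem_Icc, coe_inc (L := L) (U0 L (cls u))] with x h1 h2
  rw [KK_apply, h2, d0_cls hL hu x h1]

lemma ae_d1 (hL : 0 < L) {u : H3 L} (hu : BC u) : u.d1 =ᵐ[mu L] G L (G L (cls u)) := by
  filter_upwards [ae_mem_Icc, coe_inc (L := L) (U1 L (cls u))] with x h1 h2
  rw [← inc_U1, h2, d1_cls hL hu x h1]

lemma ae_d2 (hL : 0 < L) {u : H3 L} (hu : BC u) : u.d2 =ᵐ[mu L] G L (cls u) := by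
  filter_upwards [ae_mem_Icc, coe_inc (L := L) (U2 L (cls u))] with x h1 h2
  rw [← inc_U2, h2, d2_cls hL hu x h1]

/-- The square of the norm of `H³` in terms of the third derivative. -/
noncomputable def DD (f : HL L) : ℝ :=
  ‖KK L f‖ ^ 2 + ‖G L (G L f)‖ ^ 2 + ‖G L f‖ ^ 2 + ‖f‖ ^ 2

lemma norm_sq_eq_integral (f : HL L) : ‖f‖ ^ 2 = ∫ x, (f x) ^ 2 ∂(mu L) := by
  rw [← real_inner_self_eq_norm_sq, L2.inner_def]
  apply integral_congr_ae
  filter_upwards with x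
  simp [sq]

lemma DD_eq (f : HL L) : DD f =
    ∫ x, ((KK L f x) ^ 2 + (G L (G L f) x) ^ 2 + (G L f x) ^ 2 + (f x) ^ 2) ∂(mu L) := by
  have hi : ∀ g : HL L, Integrable (fun x => (g x) ^ 2) (mu L) := fun g => (Lp.memLp g).integrable_sq
  have e1 := integral_add (hi (KK L f)) (hi (G L (G L f)))
  have e2 := integral_add ((hi (KK L f)).add (hi (G L (G L f)))) (hi (G L f))
  have e3 := integral_add (((hi (KK L f)).add (hi (G L (G L f)))).add (hi (G L f))) (hi f)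
  simp only [Pi.add_apply] at e1 e2 e3
  rw [DD, norm_sq_eq_integral, norm_sq_eq_integral, norm_sq_eq_integral, norm_sq_eq_integral,
    e3, e2, e1]

lemma norm3_eq (hL : 0 < L) {u : H3 L} (hu : BC u) : norm3 u = √(DD (cls u)) := by
  rw [norm3, DD_eq, intervalIntegral.integral_of_le hL.le]
  congr 1
  apply integral_congr_ae
  filter_upwards [ae_d0 hL hu, ae_d1 hL hu, ae_d2 hL hu, coe_cls u] with x h0 h1 h2 h3
  rw [h0, h1, h2, h3]

lemma dist3_eq (hL : 0 < L) {u v : H3 L} (hu : BC u) (hv : BC v) :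
    dist3 u v = √(DD (cls u - cls v)) := by
  rw [dist3, DD_eq, intervalIntegral.integral_of_le hL.le]
  congr 1
  apply integral_congr_ae
  simp only [map_sub]
  filter_upwards [ae_d0 hL hu, ae_d1 hL hu, ae_d2 hL hu, coe_cls u, ae_d0 hL hv, ae_d1 hL hv,
    ae_d2 hL hv, coe_cls v, Lp.coeFn_sub (KK L (cls u)) (KK L (cls v)),
    Lp.coeFn_sub (G L (G L (cls u))) (G L (G L (cls v))),
    Lp.coeFn_sub (G L (cls u)) (G L (cls v)), Lp.coeFn_sub (cls u) (cls v)]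
    with x h0 h1 h2 h3 h4 h5 h6 h7 h8 h9 h10 h11
  rw [h0, h1, h2, h4, h5, h6, h8, h9, h10, h11]
  simp only [Pi.sub_apply]
  rw [h3, h7]

lemma norm_le_sqrt_DD (f : HL L) : ‖f‖ ≤ √(DD f) := by
  apply Real.le_sqrt_of_sq_le
  rw [DD]
  have h1 := sq_nonneg ‖KK L f‖
  have h2 := sq_nonneg ‖G L (G L f)‖
  have h3 := sq_nonneg ‖G L f‖
  linarith

/-- The constant of the equivalence of norms. -/
noncomputable def cst (L : ℝ) : ℝ := ‖KK L‖ + ‖G L‖ ^ 2 + ‖G L‖ + 1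

lemma cst_pos : 0 < cst L := by unfold cst; positivity

lemma sqrt_DD_le (f : HL L) : √(DD f) ≤ cst L * ‖f‖ := by
  rw [Real.sqrt_le_left (by have := cst_pos (L := L); positivity)]
  have h1 : ‖KK L f‖ ≤ ‖KK L‖ * ‖f‖ := (KK L).le_opNorm f
  have h2 : ‖G L f‖ ≤ ‖G L‖ * ‖f‖ := (G L).le_opNorm f
  have h3 : ‖G L (G L f)‖ ≤ ‖G L‖ * (‖G L‖ * ‖f‖) :=
    ((G L).le_opNorm _).trans (mul_le_mul_of_nonneg_left h2 (norm_nonneg _))
  have h4 : ∀ a b c d : ℝ, 0 ≤ a → 0 ≤ b → 0 ≤ c → 0 ≤ d →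
      a ^ 2 + b ^ 2 + c ^ 2 + d ^ 2 ≤ (a + b + c + d) ^ 2 := by
    intro a b c d ha hb hc hd
    nlinarith [mul_nonneg ha hb, mul_nonneg ha hc, mul_nonneg ha hd, mul_nonneg hb hc,
      mul_nonneg hb hd, mul_nonneg hc hd]
  calc DD f ≤ (‖KK L f‖ + ‖G L (G L f)‖ + ‖G L f‖ + ‖f‖) ^ 2 :=
        h4 _ _ _ _ (norm_nonneg _) (norm_nonneg _) (norm_nonneg _) (norm_nonneg _)
    _ ≤ (‖KK L‖ * ‖f‖ + ‖G L‖ * (‖G L‖ * ‖f‖) + ‖G L‖ * ‖f‖ + ‖f‖) ^ 2 := by gcongr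
    _ = (cst L * ‖f‖) ^ 2 := by rw [cst]; ring

lemma vel_kdv (hL : 0 < L) (f : HL L) :
    (kdv hL).vel f = -(f + mulE L (U1 L f) (KK L f)) := by
  rw [Sys.vel, ← BB_self]
  rfl

lemma eqn_eq (hL : 0 < L) {u v : H3 L} (hu : BC u) (hv : BC v) (c : ℝ) :
    ∫ x in (0 : ℝ)..L, ((u.d0 x - v.d0 x) / c + (v.d0 x * v.d1 x + v.d3 x)) ^ 2 =
      ‖c⁻¹ • (KK L (cls u) - KK L (cls v)) - (kdv hL).vel (cls v)‖ ^ 2 := by
  rw [vel_kdv, norm_sq_eq_integral, intervalIntegral.integral_of_le hL.le]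
  apply integral_congr_ae
  filter_upwards [ae_mem_Icc, ae_d0 hL hu, ae_d0 hL hv, coe_cls v,
    Lp.coeFn_sub (c⁻¹ • (KK L (cls u) - KK L (cls v)))
      (-(cls v + mulE L (U1 L (cls v)) (KK L (cls v)))),
    Lp.coeFn_smul c⁻¹ (KK L (cls u) - KK L (cls v)),
    Lp.coeFn_sub (KK L (cls u)) (KK L (cls v)),
    Lp.coeFn_neg (cls v + mulE L (U1 L (cls v)) (KK L (cls v))),
    Lp.coeFn_add (cls v) (mulE L (U1 L (cls v)) (KK L (cls v))),
    coe_mulE (U1 L (cls v)) (KK L (cls v))] with x hx h1 h2 h3 h4 h5 h6 h7 h8 h9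
  rw [h4]
  simp only [Pi.sub_apply]
  rw [h5, h7]
  simp only [Pi.smul_apply, Pi.neg_apply]
  rw [h6, h8]
  simp only [Pi.sub_apply, Pi.add_apply]
  rw [h9, h3, h1, h2, d1_cls hL hv x hx, smul_eq_mul]
  ring

/-- Solutions in terms of the third derivative. -/
lemma isSolution_iff (hL : 0 < L) {T : ℝ} (hT : 0 < T) {φ : H3 L} (hφ : BC φ) {u : ℝ → H3 L} :
    IsSolution L T φ u ↔ (∀ t ∈ Icc 0 T, BC (u t)) ∧ cls (u 0) = cls φ ∧
      (kdv hL).IsSol T (fun t => cls (u t)) := by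
  have h0T : (0 : ℝ) ∈ Icc 0 T := left_mem_Icc.2 hT.le
  constructor
  · intro h
    refine ⟨h.bc, ?_, ⟨fun t ht => ?_, fun t ht => ?_⟩⟩
    · apply KK_injective hL
      apply Lp.ext
      filter_upwards [ae_mem_Icc, ae_d0 hL (h.bc 0 h0T), ae_d0 hL hφ] with x hx h1 h2
      rw [← h1, ← h2, h.init x hx]
    · rw [ContinuousWithinAt, tendsto_iff_dist_tendsto_zero]
      refine squeeze_zero' (Eventually.of_forall fun _ => dist_nonneg) ?_ (h.cont t ht)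
      filter_upwards [self_mem_nhdsWithin] with s hs
      rw [dist3_eq hL (h.bc s hs) (h.bc t ht), dist_eq_norm]
      exact norm_le_sqrt_DD _
    · rw [hasDerivWithinAt_iff_tendsto_slope, tendsto_iff_dist_tendsto_zero]
      have h1 := (h.eqn t ht).sqrt
      rw [Real.sqrt_zero] at h1
      refine h1.congr' ?_
      filter_upwards [self_mem_nhdsWithin] with s hs
      rw [eqn_eq hL (h.bc s hs.1) (h.bc t ht), Real.sqrt_sq (norm_nonneg _), dist_eq_norm,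
        slope_def_module]
      rfl
  · rintro ⟨h1, h2, h3⟩
    refine ⟨fun x hx => ?_, h1, fun t ht => ?_, fun t ht => ?_⟩
    · rw [d0_cls hL (h1 0 h0T) x hx, h2, d0_cls hL hφ x hx]
    · have h4 := h3.cont t ht
      rw [ContinuousWithinAt, tendsto_iff_norm_sub_tendsto_zero] at h4
      have h5 := h4.const_mul (cst L)
      rw [mul_zero] at h5
      refine squeeze_zero' (Eventually.of_forall fun _ => Real.sqrt_nonneg _) ?_ h5
      filter_upwards [self_mem_nhdsWithin] with s hs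
      rw [dist3_eq hL (h1 s hs) (h1 t ht)]
      exact sqrt_DD_le _
    · have h4 := h3.deriv t ht
      rw [hasDerivWithinAt_iff_tendsto_slope, tendsto_iff_norm_sub_tendsto_zero] at h4
      have h5 := h4.pow 2
      rw [zero_pow two_ne_zero] at h5
      refine h5.congr' ?_
      filter_upwards [self_mem_nhdsWithin] with s hs
      rw [eqn_eq hL (h1 s hs.1) (h1 t ht), slope_def_module]
      rfl

/-- For every `L > 0` the initial-boundary value problem is well-posed in `H³(0, L)`. -/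
theorem result : ∀ L : ℝ, 0 < L → WellPosed L := by
  intro L hL R hR
  obtain ⟨T, F, hT, hF, hex⟩ := (kdv hL).exists_sol hR.le
  have h0T : (0 : ℝ) ∈ Icc 0 T := left_mem_Icc.2 hT.le
  have hcls : ∀ φ : H3 L, BC φ → norm3 φ ≤ R → ‖cls φ‖ ≤ R := fun φ hφ h => by
    rw [norm3_eq hL hφ] at h
    exact (norm_le_sqrt_DD _).trans h
  have hbd : ∀ φ : H3 L, BC φ → norm3 φ ≤ R → ∀ u : ℝ → H3 L, IsSolution L T φ u →
      ∀ t ∈ Icc 0 T, ‖cls (u t)‖ ≤ F := by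
    intro φ hφ h u hu t ht
    obtain ⟨-, h0, hs⟩ := (isSolution_iff hL hT hφ).1 hu
    obtain ⟨f, hf0, hf, hfb⟩ := hex (cls φ) (hcls φ hφ h)
    have h1 := hs.unique hf (by rw [hf0]; exact h0) t ht
    have h2 := hfb t ht
    rw [← h1] at h2
    exact h2
  refine ⟨T, hT, fun φ hφ h => ?_, fun φ hφ T' hT' u v hu hv t ht x hx => ?_,
    fun φ hφ h u hu ε hε => ?_⟩
  · obtain ⟨f, hf0, hf, -⟩ := hex (cls φ) (hcls φ hφ h)
    refine ⟨fun t => toH3 (f t), (isSolution_iff hL hT hφ).2 ⟨fun t _ => bc_toH3 hL _, ?_, ?_⟩⟩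
    · rw [cls_toH3, hf0]
    · simpa only [cls_toH3] using hf
  · obtain ⟨hu1, hu2, hu3⟩ := (isSolution_iff hL hT' hφ).1 hu
    obtain ⟨hv1, hv2, hv3⟩ := (isSolution_iff hL hT' hφ).1 hv
    have h1 := hu3.unique hv3 (by rw [hu2, hv2]) t ht
    rw [d0_cls hL (hu1 t ht) x hx, d0_cls hL (hv1 t ht) x hx, h1]
  · obtain ⟨hu1, hu2, hu3⟩ := (isSolution_iff hL hT hφ).1 hu
    have hc := cst_pos (L := L)
    obtain ⟨δ, hδ, hdep⟩ := Sys.exists_dependence hF hu3 (hbd φ hφ h u hu) hT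
      (ε := ε / cst L) (by positivity)
    refine ⟨δ, hδ, fun ψ hψ h' hd v hv t ht => ?_⟩
    obtain ⟨hv1, hv2, hv3⟩ := (isSolution_iff hL hT hψ).1 hv
    have h1 := hdep _ hv3 (hbd ψ hψ h' v hv) (by
      rw [hv2, hu2, norm_sub_rev]
      rw [dist3_eq hL hφ hψ] at hd
      exact (norm_le_sqrt_DD _).trans hd) t ht
    rw [dist3_eq hL (hu1 t ht) (hv1 t ht)]
    refine (sqrt_DD_le _).trans ?_
    rw [norm_sub_rev]
    rw [le_div_iff₀ hc] at h1
    linarith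

end Pool.Agent.Results.MP_a5ec3a_an.WellPosedH3
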